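import Pool.Agent.Helper95.Lin.Basics

/-! # Holomorphic maps of several variables are analytic -/

open Complex Metric Set Filter Topology
open scoped ContDiff Manifold ENNReal NNReal Nat

namespace Pool.Agent.Helper88.LinK

open Pool.Agent.Helper95.Lin

universe u

/-- Cauchy estimates for the iterated derivatives. -/
theorem norm_iteratedFDeriv_le {n : ℕ} :
    ∀ (m : ℕ) {F : Type u} [NormedAddCommGroup F] [NormedSpace ℂ F] [CompleteSpace F]
      {f : Cn n → F} {x : Cn n} {r M : ℝ}, 0 < r → DifferentiableOn ℂ f (ball x r) →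
      (∀ y ∈ ball x r, ‖f y‖ ≤ M) → ‖iteratedFDeriv ℂ m f x‖ ≤ M * (2 * m / r) ^ m := by
  intro m
  induction m with
  | zero =>
    intro F _ _ _ f x r M hr hf hM
    simpa using hM x (mem_ball_self hr)
  | succ m ih =>
    intro F _ _ _ f x r M hr hf hM
    have hM0 : 0 ≤ M := (norm_nonneg _).trans (hM x (mem_ball_self hr))
    rw [← norm_iteratedFDeriv_fderiv]
    rcases Nat.eq_zero_or_pos m with rfl | hm
    · have h1 := Pool.Agent.Helper8.Abund.norm_fderiv_le_of_bound (f := f) (w := x) (r := r / 2)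
        (M := M) (by positivity) (by rwa [mul_div_cancel₀ r two_ne_zero])
        (by rwa [mul_div_cancel₀ r two_ne_zero])
      rw [norm_iteratedFDeriv_zero]
      refine h1.trans (le_of_eq ?_)
      push_cast
      field_simp
    · have hm' : (0 : ℝ) < m := by exact_mod_cast hm
      have hρ : 0 < r * m / (m + 1) := by positivity
      have h1 : ∀ y ∈ ball x (r * m / (m + 1)), ‖fderiv ℂ f y‖ ≤ 2 * (m + 1) * M / r := by
        intro y hy
        have hsub : ball y (2 * (r / (2 * (m + 1)))) ⊆ ball x r := by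
          intro u hu
          rw [mem_ball] at *
          calc dist u x ≤ dist u y + dist y x := dist_triangle _ _ _
            _ < 2 * (r / (2 * (m + 1))) + r * m / (m + 1) := by linarith
            _ = r := by field_simp; ring
        have h2 := Pool.Agent.Helper8.Abund.norm_fderiv_le_of_bound (f := f) (w := y)
          (r := r / (2 * (m + 1))) (M := M) (by positivity) (hf.mono hsub)
          (fun u hu => hM u (hsub hu))
        refine h2.trans (le_of_eq ?_)
        field_simp
      have h3 : DifferentiableOn ℂ (fderiv ℂ f) (ball x (r * m / (m + 1))) :=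
        (Pool.Agent.Helper8.Abund.differentiableOn_fderiv isOpen_ball hf).mono (ball_subset_ball (by
          rw [div_le_iff₀ (by positivity)]
          nlinarith))
      refine (ih hρ h3 h1).trans (le_of_eq ?_)
      push_cast
      have e : 2 * (m : ℝ) / (r * m / (m + 1)) = 2 * (m + 1) / r := by field_simp
      rw [e, pow_succ]
      ring

/-- The derivatives of the restriction to a line. -/
theorem iteratedDeriv_line {n : ℕ} {F : Type u} [NormedAddCommGroup F] [NormedSpace ℂ F]
    [CompleteSpace F] {f : Cn n → F} {U : Set (Cn n)} (hU : IsOpen U)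
    (hf : DifferentiableOn ℂ f U) (x y : Cn n) (m : ℕ) :
    ∀ t : ℂ, x + t • y ∈ U → iteratedDeriv m (fun t : ℂ => f (x + t • y)) t =
      iteratedFDeriv ℂ m f (x + t • y) fun _ => y := by
  induction m with
  | zero =>
    intro t _
    simp
  | succ m ih =>
    intro t ht
    rw [iteratedDeriv_succ, iteratedFDeriv_succ_apply_left]
    have hO : IsOpen {s : ℂ | x + s • y ∈ U} := hU.preimage (by fun_prop)
    have he : (iteratedDeriv m fun t : ℂ => f (x + t • y)) =ᶠ[𝓝 t]
        fun s => iteratedFDeriv ℂ m f (x + s • y) fun _ => y := by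
      filter_upwards [hO.mem_nhds ht] with s hs
      exact ih s hs
    rw [he.deriv_eq]
    have hc : ContDiffAt ℂ ((m + 1 : ℕ) : ℕ∞ω) f (x + t • y) :=
      (holo_contDiffOn_nat hU (m + 1) hf).contDiffAt (hU.mem_nhds ht)
    have hd : DifferentiableAt ℂ (iteratedFDeriv ℂ m f) (x + t • y) :=
      hc.differentiableAt_iteratedFDeriv (by exact_mod_cast Nat.lt_succ_self m)
    have hl : HasDerivAt (fun s : ℂ => x + s • y) y t := by
      simpa using ((hasDerivAt_id t).smul_const y).const_add x
    have h1 : HasDerivAt (fun s : ℂ => iteratedFDeriv ℂ m f (x + s • y))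
        (fderiv ℂ (iteratedFDeriv ℂ m f) (x + t • y) y) t :=
      (hd.hasFDerivAt).comp_hasDerivAt t hl
    have h2 := (ContinuousMultilinearMap.apply ℂ (fun _ : Fin m => Cn n) F
      (fun _ => y)).hasFDerivAt.comp_hasDerivAt t h1
    have h3 : deriv (fun s : ℂ => iteratedFDeriv ℂ m f (x + s • y) fun _ => y) t =
        ContinuousMultilinearMap.apply ℂ (fun _ : Fin m => Cn n) F (fun _ => y)
          (fderiv ℂ (iteratedFDeriv ℂ m f) (x + t • y) y) := h2.deriv
    rw [h3]
    rfl

/-- Holomorphic maps of several variables are analytic. -/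
theorem analyticAt {n : ℕ} {F : Type u} [NormedAddCommGroup F] [NormedSpace ℂ F]
    [CompleteSpace F] {f : Cn n → F} {U : Set (Cn n)} (hU : IsOpen U)
    (hf : DifferentiableOn ℂ f U) {x : Cn n} (hx : x ∈ U) : AnalyticAt ℂ f x := by
  obtain ⟨r₀, M, hr₀, hsub₀, hM₀⟩ := Pool.Agent.Helper8.Abund.exists_ball_bound hU hf hx
  obtain ⟨r, hr, hsub, hM⟩ : ∃ r : ℝ, 0 < r ∧ ball x r ⊆ U ∧ ∀ y ∈ ball x r, ‖f y‖ ≤ M :=
    ⟨6 * r₀, by positivity, hsub₀, hM₀⟩
  have hM0 : 0 ≤ M := (norm_nonneg _).trans (hM x (mem_ball_self hr))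
  set p : FormalMultilinearSeries ℂ (Cn n) F := fun m =>
    ((m ! : ℂ))⁻¹ • iteratedFDeriv ℂ m f x with hp
  set R : ℝ≥0 := ⟨r / 6, by positivity⟩ with hR
  have hRr : (R : ℝ) = r / 6 := rfl
  have hexp : Real.exp 1 < 3 := by
    have := Real.exp_one_lt_d9
    linarith
  have hbound : ∀ m : ℕ, ‖p m‖ * (R : ℝ) ^ m ≤ M := by
    intro m
    have h1 := norm_iteratedFDeriv_le m hr (hf.mono hsub) hM
    have h2 : (m : ℝ) ^ m / (m ! : ℝ) ≤ Real.exp m :=
      Real.pow_div_factorial_le_exp (m : ℝ) (by positivity) m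
    have h3 : Real.exp m = Real.exp 1 ^ m := by
      rw [← Real.exp_nat_mul, mul_one]
    have hfac : (0 : ℝ) < (m ! : ℝ) := by exact_mod_cast Nat.factorial_pos m
    rw [hp]
    simp only
    rw [norm_smul, norm_inv, Complex.norm_natCast, hRr]
    calc (m ! : ℝ)⁻¹ * ‖iteratedFDeriv ℂ m f x‖ * (r / 6) ^ m
        ≤ (m ! : ℝ)⁻¹ * (M * (2 * m / r) ^ m) * (r / 6) ^ m := by gcongr
      _ = M * ((m : ℝ) ^ m / (m ! : ℝ)) * (1 / 3) ^ m := by
          have e : (2 * (m : ℝ) / r) ^ m * (r / 6) ^ m = (m : ℝ) ^ m * (1 / 3) ^ m := by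
            rw [← mul_pow, ← mul_pow]
            congr 1
            field_simp
            ring
          calc _ = M * (m ! : ℝ)⁻¹ * ((2 * (m : ℝ) / r) ^ m * (r / 6) ^ m) := by ring
            _ = _ := by rw [e]; ring
      _ ≤ M * (Real.exp 1 ^ m) * (1 / 3) ^ m := by
          rw [← h3]
          gcongr
      _ = M * (Real.exp 1 * (1 / 3)) ^ m := by rw [mul_assoc, ← mul_pow]
      _ ≤ M * 1 := by
          gcongr
          apply pow_le_one₀ (by positivity)
          linarith
      _ = M := mul_one M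
  have hball : HasFPowerSeriesOnBall f p x (R : ℝ≥0∞) := by
    refine ⟨p.le_radius_of_bound M hbound, ?_, ?_⟩
    · rw [ENNReal.coe_pos, ← NNReal.coe_pos, hRr]
      positivity
    · intro y hy
      rw [Metric.eball_coe, mem_ball_zero_iff, hRr] at hy
      have hmem : ∀ t ∈ ball (0 : ℂ) 6, x + t • y ∈ ball x r := by
        intro t ht
        rw [mem_ball_zero_iff] at ht
        rw [mem_ball, dist_eq_norm, add_sub_cancel_left, norm_smul]
        calc ‖t‖ * ‖y‖ ≤ 6 * ‖y‖ := by gcongr
          _ < 6 * (r / 6) := by gcongr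
          _ = r := by ring
      have hg : DifferentiableOn ℂ (fun t : ℂ => f (x + t • y)) (ball 0 6) := by
        refine (hf.mono hsub).comp (by fun_prop) ?_
        exact fun t ht => hmem t ht
      have h1 := Complex.hasSum_taylorSeries_on_ball hg
        (z := 1) (by rw [mem_ball_zero_iff]; norm_num)
      have h2 : ∀ m : ℕ, (p m fun _ : Fin m => y) =
          ((m ! : ℂ))⁻¹ • (1 - 0 : ℂ) ^ m • iteratedDeriv m (fun t : ℂ => f (x + t • y)) 0 := by
        intro m
        rw [iteratedDeriv_line isOpen_ball (hf.mono hsub) x y m 0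
          (hmem 0 (mem_ball_self (by norm_num)))]
        simp [hp]
      have h3 : f (x + (1 : ℂ) • y) = f (x + y) := by rw [one_smul]
      rw [← h3]
      simp_rw [h2]
      exact h1
  exact hball.analyticAt

/-- Holomorphic maps between complex manifolds are analytic. -/
theorem contMDiff_omega {n m : ℕ} {X Y : Type*} [TopologicalSpace X]
    [ChartedSpace (Fin n → ℂ) X] [IsManifold 𝓘(ℂ, Fin n → ℂ) ω X] [TopologicalSpace Y]
    [ChartedSpace (Fin m → ℂ) Y] [IsManifold 𝓘(ℂ, Fin m → ℂ) ω Y] {f : X → Y}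
    (hf : MDifferentiable 𝓘(ℂ, Fin n → ℂ) 𝓘(ℂ, Fin m → ℂ) f) :
    ContMDiff 𝓘(ℂ, Fin n → ℂ) 𝓘(ℂ, Fin m → ℂ) ω f := by
  have : IsManifold 𝓘(ℂ, Fin n → ℂ) 1 X := IsManifold.of_le (n := ω) le_top
  have : IsManifold 𝓘(ℂ, Fin m → ℂ) 1 Y := IsManifold.of_le (n := ω) le_top
  intro x
  rw [contMDiffAt_iff]
  refine ⟨(hf x).continuousAt, ?_⟩
  set cx := extChartAt 𝓘(ℂ, Fin n → ℂ) x with hcx
  set cy := extChartAt 𝓘(ℂ, Fin m → ℂ) (f x) with hcy
  have hT : IsOpen cx.target := isOpen_extChartAt_target x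
  have hS : IsOpen cy.source := isOpen_extChartAt_source (f x)
  have hcont : ContinuousOn (f ∘ cx.symm) cx.target :=
    hf.continuous.comp_continuousOn (continuousOn_extChartAt_symm x)
  set U : Set (Cn n) := cx.target ∩ (f ∘ cx.symm) ⁻¹' cy.source with hUdef
  have hU : IsOpen U := hcont.isOpen_inter_preimage hT hS
  have hmem : cx x ∈ U := by
    refine ⟨mem_extChartAt_target x, ?_⟩
    change f (cx.symm (cx x)) ∈ cy.source
    rw [hcx, extChartAt_to_inv]
    exact mem_extChartAt_source (f x)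
  have hd : DifferentiableOn ℂ (cy ∘ f ∘ cx.symm) U := by
    intro z hz
    have hz1 : cx.symm z ∈ (chartAt (Fin n → ℂ) x).source := by
      have := cx.map_target hz.1
      rwa [hcx, extChartAt_source] at this
    have hz2 : f (cx.symm z) ∈ (chartAt (Fin m → ℂ) (f x)).source := by
      have := hz.2
      rw [mem_preimage, hcy, extChartAt_source] at this
      exact this
    have h1 := ((mdifferentiableAt_iff_of_mem_source hz1 hz2).1 (hf (cx.symm z))).2
    rw [← hcx, ← hcy, cx.right_inv hz.1, ModelWithCorners.range_eq_univ] at h1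
    exact h1.mono (subset_univ _)
  have h2 : AnalyticAt ℂ (cy ∘ f ∘ cx.symm) (cx x) := analyticAt hU hd hmem
  exact h2.contDiffAt.contDiffWithinAt

end Pool.Agent.Helper88.LinK
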