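import Pool.Agent.Helper45.LinK.GoalsN
import Pool.Agent.Helper88.LinK.Omega

/-! Packet GALF of helper45 (MP_97d78d_ag, MP_5ff3c6_ag). -/

open Complex Metric Set Filter Topology MeasureTheory
open scoped ContDiff ComplexConjugate ComplexOrder Manifold ENNReal

namespace Pool.Agent.Helper88.LinK

open Pool.Agent.Helper95.Lin Pool.Agent.Helper16.Abund Pool.Agent.Helper92.Orb
open Pool.Agent.Helper45.LinK

universe u

/-- The vertical vector is determined by its fibre part. -/
theorem eq_vert {b k : ℕ} {v : Cn (b + k)} (h : base v = 0) : v = vert (fib v) := by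
  funext i
  refine Fin.addCases (fun j => ?_) (fun j => ?_) i
  · have := congrFun h j
    simp only [vert, Fin.append_left]
    simpa [base] using this
  · simp [vert, fib, Fin.append_right]

theorem base_vert {b k : ℕ} (u : Cn k) : base (vert u : Cn (b + k)) = 0 := by
  funext i
  simp [vert, base, Fin.append_left]

theorem fib_vert {b k : ℕ} (u : Cn k) : fib (vert u : Cn (b + k)) = u := by
  funext i
  simp [vert, fib, Fin.append_right]

theorem norm_vert {b k : ℕ} (u : Cn k) : ‖(vert u : Cn (b + k))‖ = ‖u‖ := by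
  apply le_antisymm
  · rw [pi_norm_le_iff_of_nonneg (norm_nonneg _)]
    intro i
    refine Fin.addCases (fun j => ?_) (fun j => ?_) i
    · simp [vert, Fin.append_left]
    · simp only [vert, Fin.append_right]
      exact norm_le_pi_norm u j
  · rw [pi_norm_le_iff_of_nonneg (norm_nonneg _)]
    intro j
    have := norm_le_pi_norm (vert u : Cn (b + k)) (Fin.natAdd b j)
    simpa [vert, Fin.append_right] using this

/-- `base` as a continuous linear map. -/
noncomputable def baseL (b k : ℕ) : Cn (b + k) →L[ℂ] Cn b :=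
  ContinuousLinearMap.pi fun i => ContinuousLinearMap.proj (Fin.castAdd k i)

theorem baseL_apply {b k : ℕ} (v : Cn (b + k)) : baseL b k v = base v := by
  funext i
  simp [baseL, base]

theorem isOpen_tubeK {b : ℕ} {D : Set (Cn b)} (hD : IsOpen D) (k : ℕ) : IsOpen (tubeK D k) := by
  have h : tubeK D k = (baseL b k) ⁻¹' D := by
    ext v
    simp [tubeK, baseL_apply]
  rw [h]
  exact hD.preimage (baseL b k).continuous

/-- A fibre preserving map has a fibre preserving derivative. -/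
theorem base_fderiv {b k : ℕ} {D : Set (Cn b)} (hD : IsOpen D) {F : Cn (b + k) → Cn (b + k)}
    (hF : DifferentiableOn ℂ F (tubeK D k)) (hb : ∀ v ∈ tubeK D k, base (F v) = base v)
    {v : Cn (b + k)} (hv : v ∈ tubeK D k) (ξ : Cn (b + k)) :
    base (fderiv ℂ F v ξ) = base ξ := by
  have hO := isOpen_tubeK hD k
  have h1 : DifferentiableAt ℂ F v := hF.differentiableAt (hO.mem_nhds hv)
  have h2 : HasFDerivAt (fun x => baseL b k (F x)) ((baseL b k).comp (fderiv ℂ F v)) v :=
    (baseL b k).hasFDerivAt.comp v h1.hasFDerivAt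
  have h3 : HasFDerivAt (fun x => baseL b k (F x)) (baseL b k) v := by
    refine (baseL b k).hasFDerivAt.congr_of_eventuallyEq ?_
    filter_upwards [hO.mem_nhds hv] with x hx
    rw [baseL_apply, baseL_apply, hb x hx]
  have h4 := h2.unique h3
  have h5 := congrArg (fun L => L ξ) h4
  simp only [ContinuousLinearMap.comp_apply, baseL_apply] at h5
  exact h5

instance instManTorTube {b : ℕ} {D : Set (Fin b → ℂ)} (hD : IsOpen D) (k : ℕ) :
    IsManifold 𝓘(ℂ, Fin (b + k) → ℂ) ω (TorTube hD k) :=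
  inferInstanceAs (IsManifold 𝓘(ℂ, Fin (b + k) → ℂ) ω (tube D hD k))

/-- A homeomorphism which is biholomorphic is a local diffeomorphism. -/
theorem isLocalDiffeomorph_symm {n : ℕ} {X Y : Type*} [TopologicalSpace X]
    [ChartedSpace (Fin n → ℂ) X] [IsManifold 𝓘(ℂ, Fin n → ℂ) ω X] [TopologicalSpace Y]
    [ChartedSpace (Fin n → ℂ) Y] [IsManifold 𝓘(ℂ, Fin n → ℂ) ω Y] (e : X ≃ₜ Y)
    (he : MDifferentiable 𝓘(ℂ, Fin n → ℂ) 𝓘(ℂ, Fin n → ℂ) e)
    (he' : MDifferentiable 𝓘(ℂ, Fin n → ℂ) 𝓘(ℂ, Fin n → ℂ) e.symm) :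
    IsLocalDiffeomorph 𝓘(ℂ, Fin n → ℂ) 𝓘(ℂ, Fin n → ℂ) ω e :=
  Diffeomorph.isLocalDiffeomorph
    { toEquiv := e.toEquiv
      contMDiff_toFun := contMDiff_omega he
      contMDiff_invFun := contMDiff_omega he' : Diffeomorph 𝓘(ℂ, Fin n → ℂ) 𝓘(ℂ, Fin n → ℂ) X Y ω }

/-- Packet GALF. -/
theorem GALF (hflat : S_FLAT) (hkfm : S_KFM) (hgalq : S_GALQ.{u}) (htubm : S_TUBM)
    (h1 : S_DKHOLK.{u}) (h2 : S_DKPRK.{u}) (h3 : S_DKCOK.{u}) (h4 : S_DKMETK.{u})
    (h5 : S_DKLOCK.{0}) : S_GALF.{u} := by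
  intro b k D hD hDc hDb X _ _ _ _ _ g hg P hP hG hfl
  have hcont : Continuous P := hP.2.1.continuous
  have hpr := h2 hD hDc X P hcont hP.2.1
  obtain ⟨h, hh, hinv, hvert⟩ := h4 hD X P hP g hg
  have hΓ : OrbAction (b + k) (DeckK P) (TorTube hD k) := by
    refine ⟨fun γ => h1 hD X P hP γ.1 γ.2, h5 hD (DeckK P) hpr, ?_⟩
    exact h3 hD X P hP.1 hP.2.1 hG
  obtain ⟨F, H, hK, hF, hH⟩ := hkfm hD hDc (DeckK P) hΓ hpr h hh
    (fun γ => hinv _ (h1 hD X P hP γ.1 γ.2) γ.2)
  -- points of the tube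
  have hmk : ∀ v ∈ tubeK D k, ∃ y : TorTube hD k, tvK y = v := fun v hv => ⟨⟨v, hv⟩, rfl⟩
  have htv : ∀ y : TorTube hD k, tvK y ∈ tubeK D k := fun y => Subtype.property (y : tube D hD k)
  have hherm : ∀ (y : TorTube hD k) (u v : Cn (b + k)), hermi (H (tvK y)) u v = herm (h y) u v := by
    intro y u v
    rw [hH]
    rfl
  have hFM : FlatM D H := by
    intro z hz
    obtain ⟨Φ, Φ', a1, a2, a3, a4, a5⟩ := hfl z hz
    refine ⟨Φ, Φ', a1, a2, a3, a4, fun w u v => ?_⟩
    have hzw : Fin.append z w ∈ tubeK D k := by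
      change base (Fin.append z w) ∈ D
      rwa [show base (Fin.append z w) = z from by funext i; simp [base]]
    obtain ⟨y, hy⟩ := hmk _ hzw
    have hb : base (tvK y) = z := by rw [hy]; funext i; simp [base]
    have hf : fib (tvK y) = w := by rw [hy]; funext i; simp [fib]
    rw [← hy, hherm, hvert, a5 y hb, hf]
  obtain ⟨Ψ, Ψ', hΨ, hC⟩ := hflat ⟨hD, hDc, hDb⟩ hK hFM
  obtain ⟨e, he, he', hed, hed', hem⟩ := htubm hD Ψ Ψ' hΨ
  -- the new covering
  set P' : TorTube hD k → X := P ∘ e.symm with hP'def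
  have hP' : HolCovering (b + k) P' :=
    ⟨hP.1.comp e.symm.surjective, hP.2.1.comp_homeomorph e.symm, fun y =>
      IsLocalDiffeomorphAt.comp (hf := isLocalDiffeomorph_symm e.symm hed' hed y)
        (hg := hP.2.2 (e.symm y))⟩
  have hG' : GaloisK P' := by
    intro y y' hy
    obtain ⟨h₀, h₀P, h₀y⟩ := hG (e.symm y) (e.symm y') hy
    refine ⟨(e.symm.trans h₀).trans e, fun v => ?_, ?_⟩
    · change P (e.symm (e (h₀ (e.symm v)))) = P (e.symm v)
      rw [e.symm_apply_apply, h₀P]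
    · change e (h₀ (e.symm y)) = y'
      rw [h₀y, e.apply_symm_apply]
  have hbase' : ∀ y, base (tvK (e.symm y)) = base (tvK y) := fun y => by
    rw [he']
    exact hΨ.bas' _ (htv y)
  have hbase : ∀ y, base (tvK (e y)) = base (tvK y) := fun y => by
    rw [he]
    exact hΨ.bas _ (htv y)
  have hPm : MDifferentiable 𝓘(ℂ, Fin (b + k) → ℂ) 𝓘(ℂ, Fin (b + k) → ℂ) P :=
    hP.2.2.contMDiff.mdifferentiable (by simp)
  -- the derivative of `e.symm` on vertical vectors
  have hkey : ∀ (y' : TorTube hD k) (a : Cn k), ∃ u : Cn k,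
      vmap P' y' a = vmap P (e.symm y') u ∧
      fderiv ℂ Ψ (tvK (e.symm y')) (vert u) = vert a := by
    intro y' a
    set L' : (Fin (b + k) → ℂ) →L[ℂ] (Fin (b + k) → ℂ) :=
      mfderiv 𝓘(ℂ, Fin (b + k) → ℂ) 𝓘(ℂ, Fin (b + k) → ℂ) e.symm y' with hL'
    have hLL : ∀ ξ : Cn (b + k), fderiv ℂ Ψ (tvK (e.symm y')) (L' ξ) = ξ := by
      intro ξ
      have c1 := mfderiv_comp y' (hed (e.symm y')) (hed' y')
      have c2 : (e ∘ e.symm : TorTube hD k → TorTube hD k) = id := by
        funext x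
        exact e.apply_symm_apply x
      rw [c2, mfderiv_id] at c1
      have c3 := congrArg (fun L : (Fin (b + k) → ℂ) →L[ℂ] (Fin (b + k) → ℂ) => L ξ) c1
      rw [← hem (e.symm y')]
      exact c3.symm
    have hb : base (L' (vert a)) = 0 := by
      have := base_fderiv hD hΨ.holo hΨ.bas (htv (e.symm y')) (L' (vert a))
      rw [hLL, base_vert] at this
      exact this.symm
    refine ⟨fib (L' (vert a)), ?_, ?_⟩
    · unfold vmap
      rw [← eq_vert hb, hP'def]
      have c1 := mfderiv_comp y' (hPm (e.symm y')) (hed' y')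
      rw [c1]
      rfl
    · rw [← eq_vert hb, hLL]
  have hQ : QCAlong g P' := by
    intro K hKD hKc
    obtain ⟨C, hC0, hC1⟩ := hC K hKD hKc
    refine ⟨C, hC0, fun y' hy' a a' haa => ?_⟩
    obtain ⟨u, hu, hu'⟩ := hkey y' a
    obtain ⟨w, hw, hw'⟩ := hkey y' a'
    have c1 := hC1 (tvK (e.symm y')) (by rw [hbase']; exact hy') u w (by
      rw [hu', hw', norm_vert, norm_vert, haa])
    rw [hherm, hherm, hvert, hvert] at c1
    rw [hu, hw]
    exact c1
  obtain ⟨r1, r2⟩ := hgalq hD hDc hDb X g hg P' hP' hG' hQ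
  refine ⟨r1, fun z hz => ?_⟩
  have hset : P '' {y : TorTube hD k | base (tvK y) = z} =
      P' '' {y : TorTube hD k | base (tvK y) = z} := by
    ext x
    constructor
    · rintro ⟨y, hy, rfl⟩
      refine ⟨e y, ?_, ?_⟩
      · change base (tvK (e y)) = z
        rw [hbase]
        exact hy
      · change P (e.symm (e y)) = P y
        rw [e.symm_apply_apply]
    · rintro ⟨y, hy, rfl⟩
      refine ⟨e.symm y, ?_, rfl⟩
      change base (tvK (e.symm y)) = z
      rw [hbase']
      exact hy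
  rw [hset]
  exact r2 z hz

end Pool.Agent.Helper88.LinK
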